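import Pool.Agent.W560.HP.Stm

/-!
# Irreducibility of the chain form
-/

set_option autoImplicit false

namespace Pool.Agent.W460.HP

open Polynomial

theorem aux {A : Type} [CommRing A] [IsDomain A] {π h : A} (hπ : Prime π) (m : ℕ) (hm : 0 < m)
    {a b : A[X]} (hab : C π * X ^ m + C h = a * b) (hh : ¬ π ∣ h)
    (ha : π ∣ a.leadingCoeff) : IsUnit b := by
  have hdeg : (C π * X ^ m + C h : A[X]).natDegree = m := by
    rw [natDegree_add_C, natDegree_C_mul_X_pow _ _ hπ.ne_zero]
  have hlead : (C π * X ^ m + C h : A[X]).leadingCoeff = π := by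
    rw [leadingCoeff, hdeg, coeff_add, coeff_C_mul_X_pow, if_pos rfl, coeff_C, if_neg hm.ne',
      add_zero]
  have hl : a.leadingCoeff * b.leadingCoeff = π := by
    rw [← leadingCoeff_mul, ← hab, hlead]
  obtain ⟨c, hc⟩ := ha
  have hcb : c * b.leadingCoeff = 1 := by
    rw [hc, mul_assoc] at hl
    exact mul_left_cancel₀ hπ.ne_zero (by rw [hl, mul_one])
  have hbu : IsUnit b.leadingCoeff := IsUnit.of_mul_eq_one c (by rw [mul_comm]; exact hcb)
  -- reduce modulo `π`
  have hprime : (Ideal.span {π} : Ideal A).IsPrime :=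
    (Ideal.span_singleton_prime hπ.ne_zero).2 hπ
  set I : Ideal A := Ideal.span {π} with hI
  have hdom : IsDomain (A ⧸ I) := Ideal.Quotient.isDomain I
  let φ : A →+* A ⧸ I := Ideal.Quotient.mk I
  have hφπ : φ π = 0 := Ideal.Quotient.eq_zero_iff_mem.2 (Ideal.mem_span_singleton_self π)
  have hφh : φ h ≠ 0 := by
    intro h0
    rw [Ideal.Quotient.eq_zero_iff_mem, hI, Ideal.mem_span_singleton] at h0
    exact hh h0
  have hmap : a.map φ * b.map φ = C (φ h) := by
    rw [← Polynomial.map_mul, ← hab, Polynomial.map_add, Polynomial.map_mul, map_C, map_C, hφπ,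
      C_0, zero_mul, zero_add]
  have ha0 : a.map φ ≠ 0 := by
    intro h0
    rw [h0, zero_mul] at hmap
    exact hφh (C_eq_zero.1 hmap.symm)
  have hb0 : b.map φ ≠ 0 := by
    intro h0
    rw [h0, mul_zero] at hmap
    exact hφh (C_eq_zero.1 hmap.symm)
  have hnd := congrArg natDegree hmap
  rw [natDegree_mul ha0 hb0, natDegree_C] at hnd
  have hφb : φ b.leadingCoeff ≠ 0 := (hbu.map φ).ne_zero
  have hbd : b.natDegree = 0 := by
    rw [← natDegree_map_of_leadingCoeff_ne_zero φ hφb]
    omega
  rw [eq_C_of_natDegree_eq_zero hbd]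
  rw [leadingCoeff, hbd] at hbu
  exact isUnit_C.2 hbu

theorem irred {A : Type} [CommRing A] [IsDomain A] {π h : A} (hπ : Prime π) (m : ℕ) (hm : 0 < m)
    (hh : ¬ π ∣ h) : Irreducible (C π * X ^ m + C h : A[X]) := by
  have hdeg : (C π * X ^ m + C h : A[X]).natDegree = m := by
    rw [natDegree_add_C, natDegree_C_mul_X_pow _ _ hπ.ne_zero]
  have hlead : (C π * X ^ m + C h : A[X]).leadingCoeff = π := by
    rw [leadingCoeff, hdeg, coeff_add, coeff_C_mul_X_pow, if_pos rfl, coeff_C, if_neg hm.ne',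
      add_zero]
  constructor
  · intro hu
    have := natDegree_eq_zero_of_isUnit hu
    omega
  · intro a b hab
    have hl : a.leadingCoeff * b.leadingCoeff = π := by
      rw [← leadingCoeff_mul, ← hab, hlead]
    rcases hπ.dvd_or_dvd (Dvd.intro_left 1 (by rw [one_mul, hl]) :
      π ∣ a.leadingCoeff * b.leadingCoeff) with h1 | h1
    · exact Or.inr (aux hπ m hm hab hh h1)
    · exact Or.inl (aux hπ m hm (hab.trans (mul_comm a b)) hh h1)

theorem irr : W560.HP.S_IRR := by
  intro k _ d n R hd hn hR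
  obtain ⟨N, rfl⟩ : ∃ N, n = N + 1 := ⟨n - 1, by omega⟩
  -- `R` does not involve the first variable
  have hR0 : (R.vars : Set (Fin (N + 1 + 1))) ⊆ Set.range (Fin.succ : Fin (N + 1) → _) := by
    intro i hi
    have h1 := hR i hi
    refine ⟨i.pred ?_, Fin.succ_pred _ _⟩
    rintro rfl
    simp at h1
  obtain ⟨R', hR'⟩ := MvPolynomial.exists_rename_eq_of_vars_subset_range R Fin.succ
    (Fin.succ_injective _) hR0
  set H : MvPolynomial (Fin (N + 1)) k := ∑ i ∈ Finset.range d,
    MvPolynomial.X (Fin.ofNat (N + 1) i) ^ (d - 1) *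
      MvPolynomial.X (Fin.ofNat (N + 1) (i + 1)) + R' with hH
  have hsucc : ∀ i, i < N + 1 → (Fin.ofNat (N + 1 + 1) (i + 1)) =
      Fin.succ (Fin.ofNat (N + 1) i) := by
    intro i hi
    apply Fin.ext
    simp only [Fin.ofNat, Fin.val_succ]
    rw [Nat.mod_eq_of_lt (by omega), Nat.mod_eq_of_lt hi]
  have hF : W560.HP.chain k d (N + 1) R =
      MvPolynomial.X 0 ^ (d - 1) * MvPolynomial.X (Fin.succ 0) +
        MvPolynomial.rename Fin.succ H := by
    unfold W560.HP.chain
    rw [Finset.sum_range_succ', hH, map_add, hR', map_sum]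
    have e0 : (Fin.ofNat (N + 1 + 1) 0) = 0 := rfl
    have e1 : (Fin.ofNat (N + 1 + 1) (0 + 1)) = Fin.succ 0 := by
      rw [hsucc 0 (by omega)]
      rfl
    rw [e0, e1]
    have e2 : ∀ i ∈ Finset.range d, (MvPolynomial.X (Fin.ofNat (N + 1 + 1) (i + 1)) ^ (d - 1) *
        MvPolynomial.X (Fin.ofNat (N + 1 + 1) (i + 1 + 1)) :
          MvPolynomial (Fin (N + 1 + 1)) k) =
        MvPolynomial.rename Fin.succ (MvPolynomial.X (Fin.ofNat (N + 1) i) ^ (d - 1) *
          MvPolynomial.X (Fin.ofNat (N + 1) (i + 1))) := by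
      intro i hi
      rw [Finset.mem_range] at hi
      rw [map_mul, map_pow, MvPolynomial.rename_X, MvPolynomial.rename_X, hsucc i (by omega),
        hsucc (i + 1) (by omega)]
    rw [Finset.sum_congr rfl e2]
    ring
  have hren : ∀ p : MvPolynomial (Fin (N + 1)) k,
      MvPolynomial.finSuccEquiv k (N + 1) (MvPolynomial.rename Fin.succ p) = C p := by
    intro p
    induction p using MvPolynomial.induction_on with
    | C a =>
      rw [MvPolynomial.rename_C]
      exact (MvPolynomial.finSuccEquiv k (N + 1)).commutes a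
    | add p q hp hq => rw [map_add, map_add, hp, hq, C_add]
    | mul_X p i hp =>
      rw [map_mul, map_mul, hp, MvPolynomial.rename_X, MvPolynomial.finSuccEquiv_X_succ, C_mul]
  have hE : MvPolynomial.finSuccEquiv k (N + 1) (W560.HP.chain k d (N + 1) R) =
      C (MvPolynomial.X 0) * X ^ (d - 1) + C H := by
    rw [hF, map_add, hren, map_mul, map_pow, MvPolynomial.finSuccEquiv_X_zero,
      MvPolynomial.finSuccEquiv_X_succ]
    ring
  rw [← MulEquiv.irreducible_iff (MvPolynomial.finSuccEquiv k (N + 1)), hE]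
  refine irred MvPolynomial.X_prime (d - 1) (by omega) ?_
  -- `H` is not divisible by the first variable
  intro hdvd
  let φ : Fin (N + 1 + 1) → k[X] := fun i =>
    if (i : ℕ) = 2 then X else if (i : ℕ) = 3 then 1 else 0
  let ψ : Fin (N + 1) → k[X] := fun i => φ i.succ
  have hψ : ∀ i, i < N + 1 → ψ (Fin.ofNat (N + 1) i) =
      if i = 1 then X else if i = 2 then 1 else 0 := by
    intro i hi
    have h1 : ((Fin.ofNat (N + 1) i).succ : ℕ) = i + 1 := by
      simp only [Fin.ofNat, Fin.val_succ]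
      rw [Nat.mod_eq_of_lt hi]
    change (if ((Fin.ofNat (N + 1) i).succ : ℕ) = 2 then X else
      if ((Fin.ofNat (N + 1) i).succ : ℕ) = 3 then 1 else 0) = _
    rw [h1]
    by_cases c1 : i = 1
    · subst c1
      simp
    · by_cases c2 : i = 2
      · subst c2
        simp
      · rw [if_neg (by omega), if_neg (by omega), if_neg c1, if_neg c2]
  have hRψ : MvPolynomial.aeval ψ R' = C (MvPolynomial.constantCoeff R) := by
    have h1 : MvPolynomial.aeval ψ R' = MvPolynomial.aeval φ R := by
      rw [← hR', MvPolynomial.aeval_rename]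
      rfl
    rw [h1, MvPolynomial.aeval_eq_constantCoeff_of_vars]
    · rfl
    · intro i hi
      have h2 := hR i hi
      change (if (i : ℕ) = 2 then X else if (i : ℕ) = 3 then 1 else 0) = (0 : k[X])
      rw [if_neg (by omega), if_neg (by omega)]
  have hHψ : MvPolynomial.aeval ψ H = X ^ (d - 1) + C (MvPolynomial.constantCoeff R) := by
    rw [hH, map_add, hRψ, map_sum, Finset.sum_eq_single 1]
    · rw [map_mul, map_pow, MvPolynomial.aeval_X, MvPolynomial.aeval_X, hψ 1 (by omega),
        hψ (1 + 1) (by omega)]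
      simp
    · intro i hi hi1
      rw [Finset.mem_range] at hi
      rw [map_mul, map_pow, MvPolynomial.aeval_X, MvPolynomial.aeval_X, hψ i (by omega),
        hψ (i + 1) (by omega), if_neg hi1]
      by_cases c2 : i = 2
      · subst c2
        simp
      · rw [if_neg c2, zero_pow (by omega), zero_mul]
    · intro h1
      exact absurd (Finset.mem_range.2 (by omega)) h1
  obtain ⟨G, hG⟩ := hdvd
  rw [hG, map_mul, MvPolynomial.aeval_X] at hHψ
  have hψ0 : ψ 0 = 0 := by
    have h1 := hψ 0 (by omega)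
    rw [if_neg (by omega), if_neg (by omega)] at h1
    exact h1
  rw [hψ0, zero_mul] at hHψ
  have h2 := congrArg (fun p : k[X] => p.coeff (d - 1)) hHψ
  simp only [coeff_zero, coeff_add, coeff_X_pow, coeff_C] at h2
  rw [if_neg (by omega : ¬ (d - 1 = 0))] at h2
  simp at h2

end Pool.Agent.W460.HP
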